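import Mathlib
import Pool.Agent.W200.IH.PC

/-!
The action of automorphisms on the solutions, and transcendence bases.
-/

set_option autoImplicit false

namespace Pool.Agent.W200.IH

open MvPolynomial
open Pool.Agent.H391R2 (Wr wr_mul_left wr_mul_right exists_perm_of_esymm)
open Pool.Agent.H391R2.T4 (tv SolP YData)
open Pool.Agent.W200.IG (Dt GD)

set_option linter.unusedSectionVars false

section rel

variable {N G : Type} [Group G] {n : ℕ} (r : Fin n → N) (vv : Fin n → G → N)

/-- The map `f` acts on the roots and their fibres as the element `x` of `G ≀ S_n`. -/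
def Rel (f : N → N) (x : Wr G n) : Prop :=
  ∀ i, f (r i) = r (x.right i) ∧ ∀ g, f (vv i g) = vv (x.right i) (x.left (x.right i) * g)

theorem Rel.mul {f f' : N → N} {x x' : Wr G n} (h' : Rel r vv f' x') (h : Rel r vv f x) :
    Rel r vv (f' ∘ f) (x' * x) := by
  intro i
  refine ⟨?_, fun g => ?_⟩
  · change f' (f (r i)) = _
    rw [(h i).1, (h' _).1]
    rfl
  · change f' (f (vv i g)) = _
    rw [(h i).2, (h' _).2, wr_mul_left, wr_mul_right]
    change _ = vv (x'.right (x.right i)) (x'.left (x'.right (x.right i)) *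
      x.left (x'.right⁻¹ (x'.right (x.right i))) * g)
    have h1 : x'.right⁻¹ (x'.right (x.right i)) = x.right i := by simp
    rw [h1, mul_assoc]

theorem Rel.uniq {r : Fin n → N} {vv : Fin n → G → N} (hr : Function.Injective r)
    (hv : ∀ i, Function.Injective (vv i)) {f : N → N} {x y : Wr G n}
    (hx : Rel r vv f x) (hy : Rel r vv f y) : x = y := by
  have h1 : x.right = y.right := by
    apply Equiv.ext
    intro i
    apply hr
    rw [← (hx i).1, ← (hy i).1]
  apply SemidirectProduct.ext _ h1
  funext j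
  obtain ⟨i, rfl⟩ := x.right.surjective j
  have h2 := (hx i).2 1
  have h3 := (hy i).2 1
  rw [h2, ← h1, mul_one, mul_one] at h3
  exact hv _ h3

theorem Rel.one : Rel r vv id (1 : Wr G n) := by
  intro i
  refine ⟨rfl, fun g => ?_⟩
  change vv i g = vv i (1 * g)
  rw [one_mul]

theorem Rel.inv {f f' : N → N} (hff : ∀ z, f' (f z) = z) {x : Wr G n} (h : Rel r vv f x) :
    Rel r vv f' x⁻¹ := by
  intro i
  obtain ⟨j, rfl⟩ := x.right.surjective i
  have h0 : (x⁻¹).right = x.right⁻¹ := rfl
  have h2 : (x⁻¹).right (x.right j) = j := by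
    rw [h0]
    simp
  have h3 : (x⁻¹).left j = (x.left (x.right j))⁻¹ := by
    have h4 := congrFun (congrArg SemidirectProduct.left (inv_mul_cancel x)) j
    rw [wr_mul_left, h0, inv_inv] at h4
    exact eq_inv_of_mul_eq_one_left h4
  refine ⟨?_, fun g => ?_⟩
  · rw [← (h j).1, hff, h2]
  · have h4 := (h j).2 ((x.left (x.right j))⁻¹ * g)
    rw [mul_inv_cancel_left] at h4
    rw [← h4, hff, h2, h3]

end rel

section act

variable {k : Type} [Field k] {G : Type} [Group G] [Fintype G]
variable (y : MvPolynomial G k) [YData y] {J m : ℕ}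

theorem SolP_apply {E : Type} [CommRing E] [Algebra k E]
    (P : Option (Fin (Fintype.card G)) → Polynomial E) (s : E) (v : G → E) (f : E →ₐ[k] E)
    (hP : ∀ i, (P i).map (f : E →+* E) = P i) (h : SolP y P s v) : SolP y P (f s) (f ∘ v) := by
  intro i
  have h1 := comp_aeval_apply (f := v) (φ := f) (tv y i)
  have h2 : aeval (f ∘ v) (tv y i) = f (aeval v (tv y i)) := h1.symm
  rw [h2, h i]
  have h3 : ((P i).map (f : E →+* E)).eval ((f : E →+* E) s) = (f : E →+* E) ((P i).eval s) :=
    Polynomial.eval_map_apply ..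
  rw [hP] at h3
  exact h3.symm

/-- Existence of the element of the wreath product. -/
theorem rel_exists (d : Dt k G J) {K N : Type} [Field K] [Field N] [Algebra k K] [Algebra K N]
    [Algebra k N] [IsScalarTower k K N] (ξ : Unit ⊕ Ix G m → N) {n : ℕ}
    {r : Fin n → N} {vv : Fin n → G → N} (hr : Function.Injective r)
    (hrw : ∀ i, Polynomial.aeval (r i) d.w ≠ 0) (hsol : ∀ i, SolP y (PX y d ξ) (r i) (vv i))
    (hall : ∀ s v, SolP y (PX y d ξ) s v → Polynomial.aeval s d.w ≠ 0 → ∃ i, s = r i)
    (hv : ∀ i, AlgebraicIndependent K (vv i)) (γ : N ≃ₐ[k] N) (hγ : ∀ v, γ (ξ v) = ξ v) :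
    ∃ x : Wr G n, Rel r vv γ x := by
  have hv' : ∀ i, AlgebraicIndependent k (vv i) := fun i =>
    (hv i).restrictScalars (algebraMap k K).injective
  have hP : ∀ i, (PX y d ξ i).map ((γ : N →ₐ[k] N) : N →+* N) = PX y d ξ i := by
    intro i
    rw [PX_map]
    congr 1
    funext v
    exact hγ v
  have h1 : ∀ i, ∃ j : Fin n, ∃ g : G, γ (r i) = r j ∧ ∀ h, γ (vv i h) = vv j (g * h) := by
    intro i
    have h2 := SolP_apply y (PX y d ξ) (r i) (vv i) (γ : N →ₐ[k] N) hP (hsol i)
    have hw : Polynomial.aeval (γ (r i)) d.w ≠ 0 := by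
      have h3 : Polynomial.aeval (γ (r i)) d.w = γ (Polynomial.aeval (r i) d.w) :=
        Polynomial.aeval_algHom_apply (γ : N →ₐ[k] N) (r i) d.w
      rw [h3]
      exact (_root_.map_ne_zero γ).2 (hrw i)
    obtain ⟨j, hj⟩ := hall _ _ h2 hw
    have hj' : γ (r i) = r j := hj
    have h3 := hsol j
    obtain ⟨π, hπ⟩ := exists_perm_of_esymm (k := k) (vv j) (γ ∘ vv i) (fun i' => by
      have h4 := h2 (some i')
      have h5 := h3 (some i')
      have h6 : ((γ : N →ₐ[k] N) (r i)) = r j := hj'
      rw [h6] at h4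
      exact h5.trans h4.symm)
    have h4 : aeval (vv j) (rename π y) = aeval (vv j) y := by
      rw [Pool.Agent.H391R2.T4.aeval_mem_orb, ← hπ]
      have h5 := h2 none
      have h6 : ((γ : N →ₐ[k] N) (r i)) = r j := hj'
      rw [h6] at h5
      exact h5.trans (h3 none).symm
    obtain ⟨g, hg⟩ := YData.stab (y := y) π
      (algebraicIndependent_iff_injective_aeval.1 (hv' j) h4)
    refine ⟨j, g, hj', fun h => ?_⟩
    have h5 := congrFun hπ h
    rw [hg] at h5
    exact h5
  choose σ g h2 h3 using h1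
  have hσ : Function.Injective σ := by
    intro i j hij
    apply hr
    apply γ.injective
    rw [h2, h2, hij]
  let σ' : Equiv.Perm (Fin n) := Equiv.ofBijective σ (Finite.injective_iff_bijective.1 hσ)
  refine ⟨⟨fun j => g (σ'.symm j), σ'⟩, fun i => ⟨h2 i, fun h => ?_⟩⟩
  change γ (vv i h) = vv (σ' i) (g (σ'.symm (σ' i)) * h)
  rw [Equiv.symm_apply_apply]
  exact h3 i h

end act

section trd

/-- A family of the right size over which the field is algebraic is a transcendence basis. -/
theorem basis_of_card {k E ι J : Type} [Field k] [Field E] [Algebra k E] [Finite ι] [Finite J]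
    (hcard : Nat.card J ≤ Nat.card ι) (ρ : ι → E) (hρ : AlgebraicIndependent k ρ) (Z : J → E)
    (h : Algebra.IsAlgebraic (IntermediateField.adjoin k (Set.range Z)) E) :
    IsTranscendenceBasis k Z := by
  have hle : Cardinal.mk J ≤ Algebra.trdeg k E := by
    have h1 : Cardinal.mk J ≤ Cardinal.mk ι := by
      have := Fintype.ofFinite J
      have := Fintype.ofFinite ι
      rw [Cardinal.mk_fintype, Cardinal.mk_fintype, Nat.cast_le, ← Nat.card_eq_fintype_card,
        ← Nat.card_eq_fintype_card]
      exact hcard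
    exact h1.trans hρ.cardinalMk_le_trdeg
  have halg : Algebra.IsAlgebraic (Algebra.adjoin k (Set.range Z)) E := by
    rw [← IntermediateField.isAlgebraic_adjoin_iff_top]
    exact h
  exact Algebra.IsAlgebraic.isTranscendenceBasis_of_le_trdeg_of_finite k Z hle

/-- Automorphisms given by two transcendence bases. -/
theorem exists_auto {k E J : Type} [Field k] [Field E] [Algebra k E] [IsAlgClosed E]
    {Z Z' : J → E} (hZ : IsTranscendenceBasis k Z) (hZ' : IsTranscendenceBasis k Z') :
    ∃ γ : E ≃ₐ[k] E, ∀ v, γ (Z v) = Z' v := by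
  obtain ⟨j, hj⟩ := Pool.Agent.H391R2.T4.lift_family Z hZ Z' hZ'.1
  have hinj : Function.Injective j := j.toRingHom.injective
  have hsurj : Function.Surjective j := by
    intro e
    have h1 : Algebra.IsAlgebraic (IntermediateField.adjoin k (Set.range Z')) E :=
      hZ'.isAlgebraic_field
    have h2 : IntermediateField.adjoin k (Set.range Z') ≤ j.fieldRange := by
      rw [IntermediateField.adjoin_le_iff]
      rintro _ ⟨v, rfl⟩
      exact ⟨Z v, hj v⟩
    have h3 : Algebra.IsAlgebraic j.fieldRange E := by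
      refine ⟨fun e => ?_⟩
      obtain ⟨p, hp, hp0⟩ := h1.isAlgebraic e
      refine ⟨p.map (IntermediateField.inclusion h2 : _ →+* _), ?_, ?_⟩
      · exact (Polynomial.map_ne_zero_iff (IntermediateField.inclusion h2).injective).2 hp
      · rw [Polynomial.aeval_def, Polynomial.eval₂_map]
        exact hp0
    have h4 : IsAlgClosed j.fieldRange :=
      IsAlgClosed.of_ringEquiv E j.fieldRange (AlgEquiv.ofInjectiveField j).toRingEquiv
    have h5 : Algebra.IsIntegral j.fieldRange E := ⟨fun e => (h3.isAlgebraic e).isIntegral⟩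
    obtain ⟨z, hz⟩ := (IsAlgClosed.algebraMap_bijective_of_isIntegral
      (k := j.fieldRange) (K := E)).2 e
    obtain ⟨x, hx⟩ := z.2
    exact ⟨x, hx.trans hz⟩
  exact ⟨AlgEquiv.ofBijective j ⟨hinj, hsurj⟩, hj⟩

end trd

end Pool.Agent.W200.IH
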