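import Mathlib

/-!
Twisted coordinates: explicit bases of twisted forms of the permutation representation.
-/

set_option autoImplicit false
set_option linter.unusedSectionVars false

namespace Pool.Agent.W200.IH

section tw

variable {k N ι C G : Type} [Field k] [Field N] [Algebra k N] [Fintype ι] [CommGroup C] [Finite C]
  [Group G] [Fintype G]

/-- Linear substitution of a family. -/
def act (A : Matrix ι ι k) (x : ι → N) : ι → N := fun i => ∑ j, algebraMap k N (A i j) * x j

theorem act_mul (A B : Matrix ι ι k) (x : ι → N) : act (A * B) x = act A (act B x) := by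
  funext i
  simp only [act, Matrix.mul_apply, map_sum, map_mul, Finset.sum_mul, Finset.mul_sum]
  rw [Finset.sum_comm]
  refine Finset.sum_congr rfl fun j _ => Finset.sum_congr rfl fun l _ => by ring

theorem act_one [DecidableEq ι] (x : ι → N) : act (1 : Matrix ι ι k) x = x := by
  funext i
  simp only [act, Matrix.one_apply]
  rw [Finset.sum_eq_single i]
  · simp
  · intro j _ hj
    rw [if_neg (Ne.symm hj), map_zero, zero_mul]
  · intro h
    exact absurd (Finset.mem_univ _) h

theorem map_act (γ : N ≃ₐ[k] N) (A : Matrix ι ι k) (x : ι → N) (i : ι) :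
    γ (act A x i) = act A (fun j => γ (x j)) i := by
  simp only [act, map_sum, map_mul, AlgEquiv.commutes]

theorem act_mem (S : IntermediateField k N) (A : Matrix ι ι k) (x : ι → N) (hx : ∀ i, x i ∈ S)
    (i : ι) : act A x i ∈ S :=
  S.sum_mem fun j _ => S.mul_mem (S.algebraMap_mem _) (hx j)

theorem eq_of_gen (x : ι → N) (γ γ' : N ≃ₐ[k] N) (h : ∀ i, γ (x i) = γ' (x i)) (a : N)
    (ha : a ∈ IntermediateField.adjoin k (Set.range x)) : γ a = γ' a := by
  induction ha using IntermediateField.adjoin_induction with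
  | mem a ha => obtain ⟨i, rfl⟩ := ha; exact h i
  | algebraMap a => rw [AlgEquiv.commutes, AlgEquiv.commutes]
  | add a b _ _ h1 h2 => rw [map_add, map_add, h1, h2]
  | inv a _ h1 => rw [map_inv₀, map_inv₀, h1]
  | mul a b _ _ h1 h2 => rw [map_mul, map_mul, h1, h2]

theorem map_mem_gen (x : ι → N) (S : IntermediateField k N) (γ : N ≃ₐ[k] N)
    (h : ∀ i, γ (x i) ∈ S) (a : N)
    (ha : a ∈ IntermediateField.adjoin k (Set.range x)) : γ a ∈ S := by
  induction ha using IntermediateField.adjoin_induction with
  | mem a ha => obtain ⟨i, rfl⟩ := ha; exact h i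
  | algebraMap a => rw [AlgEquiv.commutes]; exact S.algebraMap_mem _
  | add a b _ _ h1 h2 => rw [map_add]; exact S.add_mem h1 h2
  | inv a _ h1 => rw [map_inv₀]; exact S.inv_mem h1
  | mul a b _ _ h1 h2 => rw [map_mul]; exact S.mul_mem h1 h2

open Classical in
theorem exists_twist_basis [DecidableEq ι] (x : ι → N) (hx : LinearIndependent k x) (M : C →* Matrix ι ι k)
    (hM : Function.Injective M) (χ : C →* G)
    (hγ : ∀ c, ∃ γ : N ≃ₐ[k] N, ∀ i, γ (x i) = act (M c) x i) :
    ∃ ℓ b : G → G → N,
      (∀ i g, ℓ i g ∈ IntermediateField.adjoin k (Set.range x)) ∧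
      (∀ i g, b i g ∈ IntermediateField.adjoin k (Set.range x)) ∧
      (∀ g g', ∑ i, ℓ i g * b i g' = if g = g' then 1 else 0) ∧
      ∀ (γ : N ≃ₐ[k] N) c, (∀ i, γ (x i) = act (M c) x i) →
        ∀ i g, γ (ℓ i g) = ℓ i (χ c * g) := by
  cases nonempty_fintype C
  set L := IntermediateField.adjoin k (Set.range x) with hL
  have hxL : ∀ i, x i ∈ L := fun i => IntermediateField.subset_adjoin _ _ ⟨i, rfl⟩
  choose Γ hΓ using hγ
  have hΓL : ∀ c a, a ∈ L → Γ c a ∈ L := by
    intro c a ha
    apply map_mem_gen x L (Γ c) (fun i => ?_) a ha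
    rw [hΓ]
    exact act_mem L _ _ hxL i
  have hcomp : ∀ (γ : N ≃ₐ[k] N) c, (∀ i, γ (x i) = act (M c) x i) → ∀ c' a, a ∈ L →
      γ (Γ c' a) = Γ (c * c') a := by
    intro γ c hc c' a ha
    refine eq_of_gen x ((Γ c').trans γ) (Γ (c * c')) (fun i => ?_) a ha
    change γ (Γ c' (x i)) = _
    rw [hΓ, map_act, hΓ, mul_comm c c', map_mul, act_mul]
    congr 1
    funext j
    exact hc j
  -- the twisted vectors
  let tv : L → G → (G → N) := fun a g₀ g => ∑ c : C, if χ c * g₀ = g then Γ c (a : N) else 0
  have htvL : ∀ a g₀ g, tv a g₀ g ∈ L := by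
    intro a g₀ g
    refine L.sum_mem fun c _ => ?_
    split_ifs
    · exact hΓL c _ a.2
    · exact L.zero_mem
  have htv : ∀ (γ : N ≃ₐ[k] N) c, (∀ i, γ (x i) = act (M c) x i) → ∀ a g₀ g,
      γ (tv a g₀ g) = tv a g₀ (χ c * g) := by
    intro γ c hc a g₀ g
    simp only [tv, map_sum]
    refine Fintype.sum_bijective (fun c' => c * c') (Group.mulLeft_bijective c) _ _ fun c' => ?_
    have h1 : χ (c * c') * g₀ = χ c * g ↔ χ c' * g₀ = g := by
      rw [map_mul, mul_assoc, mul_right_inj]
    by_cases h : χ c' * g₀ = g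
    · rw [if_pos h, if_pos (h1.2 h), hcomp γ c hc c' _ a.2]
    · rw [if_neg h, if_neg fun h' => h (h1.1 h'), map_zero]
  -- they span
  have hspan : Submodule.span N (Set.range fun p : L × G => tv p.1 p.2) = ⊤ := by
    by_contra hne
    obtain ⟨f, hf, hker⟩ := Submodule.exists_le_ker_of_lt_top _ (lt_top_iff_ne_top.2 hne)
    apply hf
    have hfv : ∀ v : G → N, f v = ∑ g, v g * f (Pi.single g 1) := by
      intro v
      have h2 : v = ∑ g, v g • (Pi.single g 1 : G → N) := by
        funext g'
        simp [Finset.sum_apply, Pi.single_apply]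
      conv_lhs => rw [h2]
      rw [map_sum]
      simp only [map_smul, smul_eq_mul]
    let Φ : C → (L →* N) := fun c =>
      ((Γ c : N →+* N).comp (algebraMap L N) : L →* N)
    have hΦ : Function.Injective Φ := by
      intro c c' hcc
      have h1 : ∀ i, act (M c) x i = act (M c') x i := by
        intro i
        rw [← hΓ, ← hΓ]
        exact congrArg (fun F : L →* N => F ⟨x i, hxL i⟩) hcc
      apply hM
      ext i j
      have h2 := h1 i
      simp only [act] at h2
      have h3 := Fintype.linearIndependent_iff.1 hx (fun j => M c i j - M c' i j) (by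
        simp only [Algebra.smul_def, map_sub, sub_mul]
        rw [Finset.sum_sub_distrib, h2, sub_self]) j
      exact sub_eq_zero.1 h3
    have hind : LinearIndependent N (fun c : C => (Φ c : L → N)) :=
      (linearIndependent_monoidHom L N).comp Φ hΦ
    have hzero : ∀ g₀, f (Pi.single g₀ 1) = 0 := by
      intro g₀
      have h1 := Fintype.linearIndependent_iff.1 hind
        (fun c => f (Pi.single (χ c * g₀) 1)) (by
        funext a
        have h2 : f (tv a g₀) = 0 := hker (Submodule.subset_span ⟨(a, g₀), rfl⟩)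
        rw [hfv] at h2
        simp only [tv, Finset.sum_mul] at h2
        rw [Finset.sum_comm] at h2
        simp only [Finset.sum_apply, Pi.smul_apply, smul_eq_mul, Pi.zero_apply]
        rw [← h2]
        refine Finset.sum_congr rfl fun c _ => ?_
        rw [Finset.sum_eq_single (χ c * g₀)]
        · rw [if_pos rfl, mul_comm]
          rfl
        · intro g _ hg
          rw [if_neg (Ne.symm hg), zero_mul]
        · intro h
          exact absurd (Finset.mem_univ _) h) 1
      simpa using h1
    apply LinearMap.ext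
    intro v
    rw [hfv]
    simp [hzero]
  -- choose a basis
  obtain ⟨κ, a, ha, hsp, hli⟩ := exists_linearIndependent' N (fun p : L × G => tv p.1 p.2)
  have hb := Module.Basis.mk hli (by rw [hsp, hspan])
  let e := hb.indexEquiv (Pi.basisFun N G)
  let ℓ : G → G → N := fun i => tv (a (e.symm i)).1 (a (e.symm i)).2
  have hℓli : LinearIndependent N ℓ := hli.comp e.symm e.symm.injective
  let Λ : Matrix G G L := Matrix.of fun i g => ⟨ℓ i g, htvL _ _ _⟩
  have hΛN : (Λ.map (algebraMap L N)) = Matrix.of ℓ := by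
    ext i g
    rfl
  have hdet : IsUnit Λ.det := by
    rw [isUnit_iff_ne_zero]
    intro h0
    have h3 : IsUnit (Matrix.of ℓ) := by
      rw [← Matrix.linearIndependent_rows_iff_isUnit]
      exact hℓli
    rw [Matrix.isUnit_iff_isUnit_det, ← hΛN, ← RingHom.mapMatrix_apply, ← RingHom.map_det, h0,
      map_zero] at h3
    exact not_isUnit_zero h3
  refine ⟨ℓ, fun i g => ((Λ⁻¹ g i : L) : N), fun i g => htvL _ _ _, fun i g => (Λ⁻¹ g i).2, ?_,
    fun γ c hc i g => htv γ c hc _ _ _⟩
  intro g g'
  have h1 : Λ⁻¹ * Λ = 1 := Matrix.nonsing_inv_mul Λ hdet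
  have h2 := congrArg (fun B : Matrix G G L => algebraMap L N (B g' g)) h1
  simp only [Matrix.mul_apply, map_sum, map_mul] at h2
  have h3 : algebraMap L N ((1 : Matrix G G L) g' g) = if g = g' then 1 else 0 := by
    rw [Matrix.one_apply]
    by_cases h : g = g'
    · rw [if_pos h, if_pos h.symm, map_one]
    · rw [if_neg h, if_neg (Ne.symm h), map_zero]
  rw [← h3, ← h2]
  refine Finset.sum_congr rfl fun i _ => ?_
  exact mul_comm _ _

end tw

end Pool.Agent.W200.IH
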