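import Mathlib
import Pool.Agent.W200.IH.TC

/-!
The twisting argument: the full wreath product over a purely transcendental extension.
-/

set_option autoImplicit false

namespace Pool.Agent.W200.IH

open MvPolynomial
open Pool.Agent.H391R2 (Wr)
open Pool.Agent.H391R2.T4 (orb tv SolP YData tv_mulLeft eqF mem_eqF)
open Pool.Agent.W200.IG (Dt GD)

set_option linter.unusedSectionVars false

section twist

variable {k : Type} [Field k] {G : Type} [Group G] [Fintype G]
variable (y : MvPolynomial G k) {J m n : ℕ}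

/-- Transcendence bases over the field generated by a part of them. -/
theorem basis_over {K N ι W : Type} [Field K] [Field N] [Algebra K N] (x : ι → N) (w : W → N)
    (h : IsTranscendenceBasis K (Sum.elim x w)) :
    IsTranscendenceBasis (IntermediateField.adjoin K (Set.range x)) w := by
  have h1 : AlgebraicIndependent (IntermediateField.adjoin K (Set.range x)) w := by
    rw [IntermediateField.algebraicIndependent_adjoin_iff]
    have h1 := h.1.comp Sum.swap Sum.swap_leftInverse.injective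
    have h2 : (Sum.elim x w) ∘ Sum.swap = Sum.elim w x := by
      funext v
      rcases v with a | a <;> rfl
    rw [h2] at h1
    exact (AlgebraicIndependent.sumElim_iff.1 h1).2
  rw [h1.isTranscendenceBasis_iff_isAlgebraic, ← IntermediateField.isAlgebraic_adjoin_iff_top]
  have h2 : IntermediateField.adjoin K (Set.range (Sum.elim x w)) ≤
      IntermediateField.restrictScalars K (IntermediateField.adjoin
        (IntermediateField.adjoin K (Set.range x)) (Set.range w)) := by
    rw [IntermediateField.adjoin_le_iff]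
    rintro _ ⟨v | v, rfl⟩
    · exact (IntermediateField.adjoin (IntermediateField.adjoin K (Set.range x))
        (Set.range w)).algebraMap_mem
        (⟨x v, IntermediateField.subset_adjoin _ _ ⟨v, rfl⟩⟩ :
          IntermediateField.adjoin K (Set.range x))
    · exact IntermediateField.subset_adjoin (IntermediateField.adjoin K (Set.range x)) _ ⟨v, rfl⟩
  have h3 : Algebra.IsAlgebraic (IntermediateField.restrictScalars K (IntermediateField.adjoin
        (IntermediateField.adjoin K (Set.range x)) (Set.range w))) N :=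
    alg_mono h2 h.isAlgebraic_field
  exact h3

open Classical in
theorem twist_main [YData y] (d : Dt k G J) (h : GD y d)
    (Ψ : Polynomial (MvPolynomial (Fin (Fintype.card G)) k)) (hm : Ψ.Monic)
    (hΨ : Ψ.map ((aeval fun i : Fin (Fintype.card G) => esymm G k (i + 1) :
      MvPolynomial (Fin (Fintype.card G)) k →ₐ[k] MvPolynomial G k) :
      MvPolynomial (Fin (Fintype.card G)) k →+* MvPolynomial G k) =
      ∏ q ∈ orb y, (Polynomial.X - Polynomial.C q))
    (T : ℕ) (hT : ∀ e, (Ψ.coeff e).totalDegree ≤ T)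
    (hsep : (Polynomial.C d.c * d.R * ∏ q ∈ (orb y).erase y,
      (Polynomial.C d.c * (Polynomial.X ^ 2 * d.R) -
      Polynomial.C (aeval d.l q - aeval d.l y))).Separable)
    (M : ℕ) (hJM : J + (m + 2) < M) (hB : T * (J + (m + 2)) < M) (hM : 2 + d.R.natDegree = M)
    (hn : 3 ≤ n) (hdeg : Ψ.natDegree * M = n + (m + 2) + J)
    {K N ι C : Type} [Field K] [Algebra k K] [Field N] [Algebra K N] [Algebra k N]
    [IsScalarTower k K N] [IsAlgClosed N] [Fintype ι] [DecidableEq ι] [CommGroup C] [Finite C]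
    (Mx : C →* Matrix ι ι k) (hMx : Function.Injective Mx)
    (x : ι → N) (ξ : Unit ⊕ Ix G (m + 2) → N) (hxξ : IsTranscendenceBasis K (Sum.elim x ξ))
    (u : ι → N)
    (hu2 : ∀ (γ : N ≃ₐ[k] N) c, (∀ i, γ (x i) = act (Mx c) x i) → ∀ i, γ (u i) = u i)
    (hu3 : ∀ (γ : N ≃ₐ[k] N), (∀ i, γ (u i) = u i) → ∃ c, ∀ i, γ (x i) = act (Mx c) x i)
    (hu4 : ∀ i, IsAlgebraic (IntermediateField.adjoin k (Set.range u)) (x i))
    (σ : Fin (m + 2) → C)
    (hχ : ∀ h : Fin (m + 2) → G, ∃ χ : Fin (m + 2) → (C →* G),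
      ∀ a b, χ a (σ b) = if a = b then h a else 1)
    (gen : Fin (m + 2) → Abelianization G) (hgen : Subgroup.closure (Set.range gen) = ⊤) :
    ∃ (V : Type) (_ : Finite V) (Z : V → N) (r : Fin n → N) (vv : Fin n → G → N),
      IsTranscendenceBasis K Z ∧ Function.Injective r ∧ (∀ i, Function.Injective (vv i)) ∧
      (∀ γ : N ≃ₐ[k] N, (∀ v, γ (Z v) = Z v) → ∃ X : Wr G n, Rel r vv γ X) ∧
      ∀ X : Wr G n, ∃ γ : N ≃ₐ[K] N, (∀ v, γ (Z v) = Z v) ∧ Rel r vv γ X := by
  classical
  -- the base field `K(x)`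
  obtain ⟨K', hK'⟩ : ∃ K' : IntermediateField K N, K' = IntermediateField.adjoin K (Set.range x) :=
    ⟨_, rfl⟩
  have hxK' : ∀ i, x i ∈ K' := fun i => by
    rw [hK']; exact IntermediateField.subset_adjoin _ _ ⟨i, rfl⟩
  have hξ' : IsTranscendenceBasis K' ξ := by
    rw [hK']
    exact basis_over x ξ hxξ
  have hTkk : IsScalarTower k K' N := IsScalarTower.of_algebraMap_eq fun x => by
    have h1 : algebraMap k K' x = algebraMap K K' (algebraMap k K x) :=
      IsScalarTower.algebraMap_apply k K K' x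
    rw [h1, ← IsScalarTower.algebraMap_apply K K' N, IsScalarTower.algebraMap_apply k K N]
  obtain ⟨r₀, vv₀, hr₀, hrw, hsol, hall, hvind, hreal⟩ := geo3 y d h Ψ hm hΨ T hT
    hsep M hJM hB hM (n + (m + 2)) (by omega) hdeg (K := K') ξ hξ'
  have hv₀ : ∀ i, Function.Injective (vv₀ i) := fun i => (hvind i).injective
  have hex : ∀ γ : N ≃ₐ[k] N, (∀ v, γ (ξ v) = ξ v) → ∃ X, Rel r₀ vv₀ γ X := fun γ hγ =>
    rel_exists y d (K := K') ξ hr₀ hrw hsol hall hvind γ hγ
  -- automorphisms
  have hinvx : ∀ c, act (Mx c⁻¹) (act (Mx c) x) = x := by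
    intro c
    rw [← act_mul, ← map_mul, inv_mul_cancel, map_one, act_one]
  have hactS : ∀ (S : IntermediateField K N) (A : Matrix ι ι k) (x : ι → N), (∀ i, x i ∈ S) →
      ∀ i, act A x i ∈ S := by
    intro S A x hx i
    refine S.sum_mem fun j _ => S.mul_mem ?_ (hx j)
    rw [IsScalarTower.algebraMap_apply k K N]
    exact S.algebraMap_mem _
  have hauto : ∀ {W : Type} [Finite W] (w : W → N) (_ : IsTranscendenceBasis K (Sum.elim x w)) c,
      ∃ γ : N ≃ₐ[K] N, (∀ i, γ (x i) = act (Mx c) x i) ∧ ∀ v, γ (w v) = w v := by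
    intro W _ w hw c
    have h1 : IsTranscendenceBasis K (Sum.elim (act (Mx c) x) w) := by
      refine basis_of_card le_rfl (Sum.elim x w) hw.1 _ (alg_mono ?_ hw.isAlgebraic_field)
      rw [IntermediateField.adjoin_le_iff]
      rintro _ ⟨v | v, rfl⟩
      · have h2 : x v = act (Mx c⁻¹) (act (Mx c) x) v := by rw [hinvx]
        change x v ∈ _
        rw [h2]
        refine hactS _ _ _ (fun i => ?_) v
        exact IntermediateField.subset_adjoin _ _ ⟨Sum.inl i, rfl⟩
      · exact IntermediateField.subset_adjoin _ _ ⟨Sum.inr v, rfl⟩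
    obtain ⟨γ, hγ⟩ := exists_auto hw h1
    exact ⟨γ, fun i => hγ (Sum.inl i), fun v => hγ (Sum.inr v)⟩
  -- reference automorphisms
  have hγ0 := fun b : Fin (m + 2) => hauto ξ hxξ (σ b)
  choose γ0 hγ0x hγ0ξ using hγ0
  have hX0 := fun b : Fin (m + 2) => hex ((γ0 b).restrictScalars k) (hγ0ξ b)
  choose X0 hX0 using hX0
  have hh : ∀ b, ∃ g : G, Abelianization.of g = bh G _ (X0 b) * (gen b)⁻¹ := fun b =>
    QuotientGroup.mk_surjective _
  choose hg hhg using hh
  obtain ⟨χ, hχσ⟩ := hχ hg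
  -- the twisted coordinates
  have hxk : LinearIndependent k x := by
    have h1 : AlgebraicIndependent K x := hxξ.1.comp Sum.inl Sum.inl_injective
    have h2 : AlgebraicIndependent k x := h1.restrictScalars (algebraMap k K).injective
    exact h2.linearIndependent
  have htw := fun a : Fin (m + 2) => exists_twist_basis x hxk Mx hMx (χ a) (fun c => by
    obtain ⟨γ, hγ, -⟩ := hauto ξ hxξ c
    exact ⟨γ.restrictScalars k, hγ⟩)
  choose ℓ b hℓ hb hℓb hℓγ using htw
  let z : Fin (m + 2) → G → N := fun a i => ∑ g, b a i g * vv₀ (Fin.natAdd n a) g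
  have hz : ∀ a g, vv₀ (Fin.natAdd n a) g = ∑ i, ℓ a i g * z a i := by
    intro a g
    simp only [z, Finset.mul_sum]
    rw [Finset.sum_comm]
    have h1 : ∀ g', ∑ i, ℓ a i g * (b a i g' * vv₀ (Fin.natAdd n a) g') =
        (if g = g' then 1 else 0) * vv₀ (Fin.natAdd n a) g' := by
      intro g'
      rw [← hℓb, Finset.sum_mul]
      exact Finset.sum_congr rfl fun i _ => by ring
    simp only [h1]
    rw [Finset.sum_eq_single g]
    · simp
    · intro g' _ hne
      rw [if_neg (Ne.symm hne), zero_mul]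
    · intro h
      exact absurd (Finset.mem_univ _) h
  let W := Unit ⊕ (Fin (m + 2) ⊕ (Fin (m + 2) × G))
  let w : W → N := Sum.elim (fun _ => ξ (Sum.inl ())) (Sum.elim (fun a => r₀ (Fin.natAdd n a))
    (fun p => z p.1 p.2))
  let Z : ι ⊕ W → N := Sum.elim u w
  have hcard : Nat.card (ι ⊕ W) ≤ Nat.card (ι ⊕ (Unit ⊕ Ix G (m + 2))) := by
    simp only [W, Ix, Nat.card_eq_fintype_card, Fintype.card_sum, Fintype.card_prod,
      Fintype.card_fin, Fintype.card_unit, Fintype.card_option]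
    have : (Fintype.card G + 1) * (m + 2) = (m + 2) + (m + 2) * Fintype.card G := by ring
    omega
  have hinjP : Function.Injective (fun a : Fin (m + 2) => r₀ (Fin.natAdd n a)) :=
    hr₀.comp (Fin.natAdd_injective (m + 2) n)
  -- the parameters in a field containing `x`, `w`
  have hξS : ∀ S : IntermediateField k N, (∀ i, x i ∈ S) → (∀ v, w v ∈ S) → ∀ v, ξ v ∈ S := by
    intro S hxS hwS v
    have hLS : IntermediateField.adjoin k (Set.range x) ≤ S := by
      rw [IntermediateField.adjoin_le_iff]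
      rintro _ ⟨i, rfl⟩
      exact hxS i
    refine theta_mem y d ξ S (hwS (Sum.inl ())) (fun a => r₀ (Fin.natAdd n a)) hinjP
      (fun a => hwS (Sum.inr (Sum.inl a))) (fun a => hrw _) (fun a => vv₀ (Fin.natAdd n a))
      (fun a => hsol _) (fun a i => ?_) v
    have h1 : ∀ g, vv₀ (Fin.natAdd n a) g ∈ S := by
      intro g
      rw [hz]
      exact S.sum_mem fun i _ => S.mul_mem (hLS (hℓ _ _ _)) (hwS (Sum.inr (Sum.inr (a, i))))
    have h2 : aeval (vv₀ (Fin.natAdd n a)) (tv y i) =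
        ((aeval fun g => (⟨_, h1 g⟩ : S)) (tv y i) : S) := by
      have h3 := comp_aeval_apply (f := fun g => (⟨_, h1 g⟩ : S)) (φ := S.val) (tv y i)
      exact h3.symm
    rw [h2]
    exact Subtype.property _
  have hZ' : IsTranscendenceBasis K (Sum.elim x w) := by
    refine basis_of_card hcard (Sum.elim x ξ) hxξ.1 _ (alg_mono ?_ hxξ.isAlgebraic_field)
    rw [IntermediateField.adjoin_le_iff]
    have h1 := hξS (IntermediateField.restrictScalars k
      (IntermediateField.adjoin K (Set.range (Sum.elim x w))))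
      (fun i => IntermediateField.subset_adjoin K _ ⟨Sum.inl i, rfl⟩)
      (fun v => IntermediateField.subset_adjoin K _ ⟨Sum.inr v, rfl⟩)
    rintro _ ⟨v | v, rfl⟩
    · exact IntermediateField.subset_adjoin K _ ⟨Sum.inl v, rfl⟩
    · exact h1 v
  have hZ : IsTranscendenceBasis K Z := by
    refine basis_of_card hcard (Sum.elim x ξ) hxξ.1 _
      (alg_of_alg _ (Set.range (Sum.elim x w)) ?_ hZ'.isAlgebraic_field)
    rintro _ ⟨v | v, rfl⟩
    · obtain ⟨p, hp, hp0⟩ := hu4 v
      have hle : IntermediateField.adjoin k (Set.range u) ≤ IntermediateField.restrictScalars k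
          (IntermediateField.adjoin K (Set.range Z)) := by
        rw [IntermediateField.adjoin_le_iff]
        rintro _ ⟨i, rfl⟩
        exact IntermediateField.subset_adjoin K _ ⟨Sum.inl i, rfl⟩
      have halg : IsAlgebraic (IntermediateField.restrictScalars k
          (IntermediateField.adjoin K (Set.range Z))) (x v) := by
        refine ⟨p.map (IntermediateField.inclusion hle : _ →+* _), ?_, ?_⟩
        · exact (Polynomial.map_ne_zero_iff (IntermediateField.inclusion hle).injective).2 hp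
        · rw [Polynomial.aeval_def, Polynomial.eval₂_map]
          exact hp0
      exact halg
    · exact isAlgebraic_algebraMap (⟨w v, IntermediateField.subset_adjoin K _ ⟨Sum.inr v, rfl⟩⟩ :
        IntermediateField.adjoin K (Set.range Z))
  -- an automorphism acting on `x` by `c` and fixing `w`
  have hact : ∀ (γ : N ≃ₐ[k] N) (c : C), (∀ i, γ (x i) = act (Mx c) x i) → (∀ v, γ (w v) = w v) →
      ∃ (X : Wr G (n + (m + 2))) (X' : Wr G n), (∀ v, γ (ξ v) = ξ v) ∧ Rel r₀ vv₀ γ X ∧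
        Rel (fun i => r₀ (Fin.castAdd (m + 2) i)) (fun i => vv₀ (Fin.castAdd (m + 2) i)) γ X' ∧
        bh G _ X = bh G _ X' * ∏ a, Abelianization.of (χ a c) := by
    intro γ c hc hw
    have hv : ∀ a g, γ (vv₀ (Fin.natAdd n a) g) = vv₀ (Fin.natAdd n a) (χ a c * g) := by
      intro a g
      rw [hz, hz, map_sum]
      refine Finset.sum_congr rfl fun i _ => ?_
      rw [map_mul, hℓγ a γ c hc]
      congr 1
      exact hw (Sum.inr (Sum.inr (a, i)))
    have hξγ : ∀ v, γ (ξ v) = ξ v := by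
      intro v
      have h1 : ξ v ∈ eqF (γ : N →ₐ[k] N) (AlgHom.id k N) := by
        refine theta_mem y d ξ (eqF (γ : N →ₐ[k] N) (AlgHom.id k N)) (hw (Sum.inl ()))
          (fun a => r₀ (Fin.natAdd n a)) hinjP
          (fun a => hw (Sum.inr (Sum.inl a))) (fun a => hrw _) (fun a => vv₀ (Fin.natAdd n a))
          (fun a => hsol _) (fun a i => ?_) v
        rw [mem_eqF]
        change (γ : N →ₐ[k] N) (aeval (vv₀ (Fin.natAdd n a)) (tv y i)) =
          aeval (vv₀ (Fin.natAdd n a)) (tv y i)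
        have h3 := comp_aeval_apply (f := vv₀ (Fin.natAdd n a)) (φ := (γ : N →ₐ[k] N)) (tv y i)
        have h4 : (fun g => (γ : N →ₐ[k] N) (vv₀ (Fin.natAdd n a) g)) =
            vv₀ (Fin.natAdd n a) ∘ Equiv.mulLeft (χ a c) := by
          funext g
          exact hv a g
        rw [h4, tv_mulLeft] at h3
        exact h3
      exact h1
    obtain ⟨X, hX⟩ := hex γ hξγ
    have hXr : ∀ a, X.right (Fin.natAdd n a) = Fin.natAdd n a := by
      intro a
      apply hr₀
      rw [← (hX _).1]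
      exact hw (Sum.inr (Sum.inl a))
    have hXl : ∀ a, X.left (Fin.natAdd n a) = χ a c := by
      intro a
      have h1 := (hX (Fin.natAdd n a)).2 1
      rw [hXr, hv, mul_one, mul_one] at h1
      exact (hv₀ _ h1).symm
    obtain ⟨X', hX'r, hX'l⟩ := exists_restr X hXr
    refine ⟨X, X', hξγ, hX, fun i => ⟨?_, fun g => ?_⟩, ?_⟩
    · rw [(hX _).1, hX'r]
    · rw [(hX _).2, hX'r, hX'l]
    · rw [bh_split]
      congr 1
      · rw [bh_apply]
        exact Finset.prod_congr rfl fun i _ => by rw [hX'l]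
      · exact Finset.prod_congr rfl fun a _ => by rw [hXl]
  have hfixZ : ∀ γ : N ≃ₐ[k] N, (∀ i, γ (x i) = x i) → (∀ v, γ (ξ v) = ξ v) →
      (∀ a, γ (r₀ (Fin.natAdd n a)) = r₀ (Fin.natAdd n a)) →
      (∀ a g, γ (vv₀ (Fin.natAdd n a) g) = vv₀ (Fin.natAdd n a) g) → ∀ v, γ (Z v) = Z v := by
    intro γ h1 h2 h3 h4
    rintro (i | (_ | (a | ⟨a, i⟩)))
    · exact hu2 γ 1 (fun i => by rw [map_one, act_one]; exact h1 i) i
    · exact h2 _
    · exact h3 a
    · change γ (z a i) = z a i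
      simp only [z, map_sum, map_mul]
      refine Finset.sum_congr rfl fun g _ => ?_
      rw [h4, eq_of_gen x γ AlgEquiv.refl h1 _ (hb a i g)]
      rfl
  have hrestr : ∀ (γ : N → N) (X : Wr G n), Rel r₀ vv₀ γ (extW X (m + 2)) →
      Rel (fun i => r₀ (Fin.castAdd (m + 2) i)) (fun i => vv₀ (Fin.castAdd (m + 2) i)) γ X ∧
      (∀ a, γ (r₀ (Fin.natAdd n a)) = r₀ (Fin.natAdd n a)) ∧
      (∀ a g, γ (vv₀ (Fin.natAdd n a) g) = vv₀ (Fin.natAdd n a) g) := by
    intro γ X hX
    refine ⟨fun i => ⟨?_, fun g => ?_⟩, fun a => ?_, fun a g => ?_⟩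
    · rw [(hX _).1, extW_right_castAdd]
    · rw [(hX _).2, extW_right_castAdd, extW_left_castAdd]
    · rw [(hX _).1, extW_right_natAdd]
    · rw [(hX _).2, extW_right_natAdd, extW_left_natAdd, one_mul]
  obtain ⟨r, hrdef⟩ : ∃ r : Fin n → N, r = fun i => r₀ (Fin.castAdd (m + 2) i) := ⟨_, rfl⟩
  obtain ⟨vv, hvvdef⟩ : ∃ vv : Fin n → G → N, vv = fun i => vv₀ (Fin.castAdd (m + 2) i) :=
    ⟨_, rfl⟩
  rw [← hrdef, ← hvvdef] at hact hrestr
  have hr : Function.Injective r := by
    rw [hrdef]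
    exact hr₀.comp (Fin.castAdd_injective n (m + 2))
  have hv : ∀ i, Function.Injective (vv i) := by
    rw [hvvdef]
    exact fun i => hv₀ _
  refine ⟨ι ⊕ W, inferInstance, Z, r, vv, hZ, hr, hv, fun γ hγ => ?_, ?_⟩
  · obtain ⟨c, hc⟩ := hu3 γ (fun i => hγ (Sum.inl i))
    obtain ⟨X, X', -, -, h2, -⟩ := hact γ c hc (fun v => hγ (Sum.inr v))
    exact ⟨X', h2⟩
  -- the group of realised elements
  let H : Subgroup (Wr G n) :=
    { carrier := {X | ∃ γ : N ≃ₐ[K] N, (∀ v, γ (Z v) = Z v) ∧ Rel r vv γ X}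
      mul_mem' := by
        rintro X Y ⟨γ, hγ, hX⟩ ⟨γ', hγ', hY⟩
        refine ⟨γ'.trans γ, fun v => ?_, ?_⟩
        · change γ (γ' (Z v)) = Z v
          rw [hγ', hγ]
        · have h1 : Rel r vv (γ ∘ γ') (X * Y) := Rel.mul r vv hX hY
          exact h1
      one_mem' := ⟨AlgEquiv.refl, fun v => rfl, Rel.one r vv⟩
      inv_mem' := by
        rintro X ⟨γ, hγ, hX⟩
        refine ⟨γ.symm, fun v => ?_, ?_⟩
        · rw [AlgEquiv.symm_apply_eq, hγ]
        · exact Rel.inv r vv (fun z => γ.symm_apply_apply z) hX }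
  have hker : ∀ X : Wr G n, bh G n X = 1 → X ∈ H := by
    intro X hX
    obtain ⟨γ, hγξ, hγ⟩ := hreal (extW X (m + 2)) (by
      rw [← bh_apply, bh_extW]
      exact hX)
    have hγx : ∀ i, γ (x i) = x i := fun i => γ.commutes ⟨x i, hxK' i⟩
    obtain ⟨h1, h2, h3⟩ := hrestr γ X hγ
    exact ⟨γ.restrictScalars K, hfixZ (γ.restrictScalars k) hγx hγξ h2 h3, h1⟩
  have hn0 : 0 < n := by omega
  have hgenb : ∀ b, gen b ∈ H.map (bh G n) := by
    intro b
    obtain ⟨γb, hγb, hγbw⟩ := hauto w hZ' (σ b)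
    obtain ⟨X, X', hXξ, hX, hX', hbh⟩ := hact (γb.restrictScalars k) (σ b) hγb hγbw
    have hX'H : X' ∈ H := ⟨γb, fun v => by
      rcases v with i | v
      · exact hu2 (γb.restrictScalars k) (σ b) hγb i
      · exact hγbw v, hX'⟩
    have hprod : ∏ a, Abelianization.of (χ a (σ b)) = bh G _ (X0 b) * (gen b)⁻¹ := by
      rw [← hhg, Finset.prod_eq_single b]
      · rw [hχσ, if_pos rfl]
      · intro a _ hne
        rw [hχσ, if_neg hne, map_one]
      · intro h
        exact absurd (Finset.mem_univ _) h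
    have hX0r : Rel r₀ vv₀ (γ0 b).symm (X0 b)⁻¹ :=
      Rel.inv r₀ vv₀ (fun z => (γ0 b).symm_apply_apply z) (hX0 b)
    have hδ : Rel r₀ vv₀ (γb ∘ (γ0 b).symm) (X * (X0 b)⁻¹) := Rel.mul _ _ hX hX0r
    obtain ⟨g₁, hg₁⟩ : ∃ g₁ : G, Abelianization.of g₁ = bh G _ (X * (X0 b)⁻¹) :=
      QuotientGroup.mk_surjective _
    obtain ⟨Y₁, hY₁⟩ : ∃ Y₁ : Wr G n, bh G n Y₁ = Abelianization.of g₁ := by
      refine ⟨⟨Pi.mulSingle ⟨0, hn0⟩ g₁, 1⟩, ?_⟩
      rw [bh_apply, Finset.prod_eq_single ⟨0, hn0⟩]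
      · simp
      · intro j _ hj
        change Abelianization.of ((Pi.mulSingle (⟨0, hn0⟩ : Fin n) g₁ : Fin n → G) j) = 1
        rw [Pi.mulSingle_eq_of_ne hj, map_one]
      · intro h
        exact absurd (Finset.mem_univ _) h
    obtain ⟨γ', hγ'ξ, hγ'⟩ := hreal (extW Y₁ (m + 2) * (X * (X0 b)⁻¹)⁻¹) (by
      rw [← bh_apply, map_mul, map_inv, bh_extW, hY₁, hg₁, mul_inv_cancel])
    have hγ'x : ∀ i, γ' (x i) = x i := fun i => γ'.commutes ⟨x i, hxK' i⟩
    have h0x : ∀ i, (γ0 b).symm (x i) = act (Mx (σ b)⁻¹) x i := by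
      intro i
      rw [AlgEquiv.symm_apply_eq]
      have h1 := map_act ((γ0 b).restrictScalars k) (Mx (σ b)⁻¹) x i
      have h2 : (fun j => ((γ0 b).restrictScalars k) (x j)) = act (Mx (σ b)) x := by
        funext j
        exact hγ0x b j
      rw [h2, hinvx] at h1
      exact h1.symm
    let δ : N ≃ₐ[K] N := ((γ0 b).symm.trans γb).trans (γ'.restrictScalars K)
    have hδx : ∀ i, δ (x i) = x i := by
      intro i
      change γ' (γb ((γ0 b).symm (x i))) = x i
      rw [h0x]
      have h1 := map_act (γb.restrictScalars k) (Mx (σ b)⁻¹) x i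
      have h2 : (fun j => (γb.restrictScalars k) (x j)) = act (Mx (σ b)) x := by
        funext j
        exact hγb j
      rw [h2, hinvx] at h1
      have h3 : γb (act (Mx (σ b)⁻¹) x i) = x i := h1
      rw [h3, hγ'x]
    have hδR : Rel r₀ vv₀ δ (extW Y₁ (m + 2)) := by
      have h1 := Rel.mul r₀ vv₀ hγ' hδ
      rw [inv_mul_cancel_right] at h1
      exact h1
    have hδξ : ∀ v, δ (ξ v) = ξ v := by
      intro v
      have hwξ : γb (ξ v) = ξ v := hXξ v
      change γ' (γb ((γ0 b).symm (ξ v))) = ξ v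
      have h1 : (γ0 b).symm (ξ v) = ξ v := by
        rw [AlgEquiv.symm_apply_eq, hγ0ξ]
      rw [h1, hwξ, hγ'ξ]
    obtain ⟨h1, h2, h3⟩ := hrestr δ Y₁ hδR
    have hY₁H : Y₁ ∈ H := ⟨δ, hfixZ (δ.restrictScalars k) hδx hδξ h2 h3, h1⟩
    refine ⟨X' * Y₁⁻¹, H.mul_mem hX'H (H.inv_mem hY₁H), ?_⟩
    rw [map_mul, map_inv, hY₁, hg₁, map_mul, map_inv, hbh, hprod]
    have h4 : ∀ a b c : Abelianization G, a * (a * (b * c⁻¹) * b⁻¹)⁻¹ = c := by
      intro a b c
      rw [mul_assoc a, mul_comm b c⁻¹, mul_assoc, mul_inv_cancel, mul_one, mul_inv, inv_inv,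
        mul_inv_cancel_left]
    exact h4 _ _ _
  have htop : H.map (bh G n) = ⊤ := by
    rw [eq_top_iff, ← hgen, Subgroup.closure_le]
    rintro _ ⟨b, rfl⟩
    exact hgenb b
  intro X
  have h1 : bh G n X ∈ H.map (bh G n) := by
    rw [htop]
    exact Subgroup.mem_top _
  obtain ⟨X₁, hX₁, h2⟩ := h1
  have h3 : X * X₁⁻¹ ∈ H := hker _ (by rw [map_mul, map_inv, h2, mul_inv_cancel])
  have h4 := H.mul_mem h3 hX₁
  rw [inv_mul_cancel_right] at h4
  exact h4

end twist

end Pool.Agent.W200.IH
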