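import Mathlib
import Pool.Agent.W200.IH.TB

/-!
The Lang torsor of the unit group of a finite commutative algebra over the prime field.
-/

set_option autoImplicit false

namespace Pool.Agent.W200.IH

open scoped Matrix

set_option linter.unusedSectionVars false

section lang

variable {p : ℕ} [Fact p.Prime] {A : Type} [CommRing A] [Algebra (ZMod p) A] {ι : Type}
  [Fintype ι] [DecidableEq ι] (bA : Module.Basis ι (ZMod p) A)

/-- Multiplication matrices over an extension. -/
noncomputable def LL {R : Type} [CommRing R] (f : ZMod p →+* R) (a : ι → R) : Matrix ι ι R :=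
  fun l j => ∑ i, a i * f (bA.repr (bA i * bA j) l)

variable {R : Type} [CommRing R] (f : ZMod p →+* R)

theorem LL_apply (a : ι → R) (l j : ι) : LL bA f a l j = ∑ i, a i * f (bA.repr (bA i * bA j) l) :=
  rfl

theorem LL_comm (a b : ι → R) : LL bA f a *ᵥ b = LL bA f b *ᵥ a := by
  funext l
  simp only [Matrix.mulVec, dotProduct, LL_apply, Finset.sum_mul]
  rw [Finset.sum_comm]
  refine Finset.sum_congr rfl fun i _ => Finset.sum_congr rfl fun j _ => ?_
  rw [mul_comm (bA i)]
  ring

theorem repr_mul_sum (c d : A) (l : ι) :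
    bA.repr (c * d) l = ∑ r, bA.repr c r * bA.repr (bA r * d) l := by
  conv_lhs => rw [← bA.sum_repr c]
  rw [Finset.sum_mul, map_sum, Finsupp.finsetSum_apply]
  refine Finset.sum_congr rfl fun r _ => ?_
  rw [smul_mul_assoc, map_smul, Finsupp.smul_apply, smul_eq_mul]

theorem LL_mul (a b : ι → R) : LL bA f (LL bA f a *ᵥ b) = LL bA f a * LL bA f b := by
  ext l q
  simp only [LL_apply, Matrix.mulVec, dotProduct, Matrix.mul_apply, Finset.sum_mul, Finset.mul_sum]
  have h1 : ∀ i j, ∑ r, f (bA.repr (bA i * bA j) r) * f (bA.repr (bA r * bA q) l) =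
      ∑ r, f (bA.repr (bA i * bA r) l) * f (bA.repr (bA j * bA q) r) := by
    intro i j
    simp only [← map_mul, ← map_sum]
    congr 1
    rw [← repr_mul_sum, mul_assoc, mul_comm, repr_mul_sum]
    refine Finset.sum_congr rfl fun r _ => ?_
    rw [mul_comm (bA r), mul_comm]
  have h2 : ∑ x, ∑ x_1, ∑ x_2, a x_2 * f (bA.repr (bA x_2 * bA x_1) x) * b x_1 *
      f (bA.repr (bA x * bA q) l) = ∑ i, ∑ j, a i * b j *
        ∑ r, f (bA.repr (bA i * bA j) r) * f (bA.repr (bA r * bA q) l) := by
    simp only [Finset.mul_sum]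
    rw [Finset.sum_comm]
    rw [Finset.sum_congr rfl fun j _ => Finset.sum_comm]
    rw [Finset.sum_comm]
    refine Finset.sum_congr rfl fun i _ => Finset.sum_congr rfl fun j _ =>
      Finset.sum_congr rfl fun r _ => by ring
  rw [h2]
  simp only [h1, Finset.mul_sum]
  rw [Finset.sum_congr rfl fun i _ => Finset.sum_comm]
  rw [Finset.sum_comm]
  refine Finset.sum_congr rfl fun r _ => ?_
  rw [Finset.sum_comm]
  refine Finset.sum_congr rfl fun j _ => ?_
  refine Finset.sum_congr rfl fun i _ => by ring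

theorem LL_map {R' : Type} [CommRing R'] (g : R →+* R') (a : ι → R) :
    (LL bA f a).map g = LL bA (g.comp f) (g ∘ a) := by
  ext l j
  simp only [Matrix.map_apply, LL_apply, map_sum, map_mul, Function.comp_apply,
    RingHom.comp_apply]

theorem LL_repr (c : A) : LL bA f (fun i => f (bA.repr c i)) =
    (Algebra.leftMulMatrix bA c).map f := by
  ext l j
  simp only [LL_apply, Matrix.map_apply, Algebra.leftMulMatrix_eq_repr_mul]
  rw [repr_mul_sum, map_sum]
  simp only [map_mul]

/-- The multiplication action of the units. -/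
noncomputable def Mu (k : Type) [Field k] (f : ZMod p →+* k) : Aˣ →* Matrix ι ι k :=
  ((RingHom.mapMatrix f : Matrix ι ι (ZMod p) →+* Matrix ι ι k) :
    Matrix ι ι (ZMod p) →* Matrix ι ι k).comp
    (((Algebra.leftMulMatrix bA : A →ₐ[ZMod p] Matrix ι ι (ZMod p)) :
      A →* Matrix ι ι (ZMod p)).comp (Units.coeHom A))

theorem Mu_apply (k : Type) [Field k] (f : ZMod p →+* k) (c : Aˣ) :
    Mu bA k f c = (Algebra.leftMulMatrix bA (c : A)).map f := rfl

theorem Mu_injective (k : Type) [Field k] (f : ZMod p →+* k) : Function.Injective (Mu bA k f) := by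
  intro c d h
  rw [Mu_apply, Mu_apply] at h
  have h1 := Matrix.map_injective f.injective h
  exact Units.ext (Algebra.leftMulMatrix_injective bA h1)

variable {k N : Type} [Field k] [Field N] [Algebra k N] [CharP k p]

theorem LL_one : LL bA f (fun i => f (bA.repr 1 i)) = 1 := by
  rw [LL_repr, map_one]
  exact Matrix.map_one f (map_zero f) (map_one f)

theorem det_ne_zero (fk : ZMod p →+* k) (x : ι → N) (hx : AlgebraicIndependent k x) :
    (LL bA ((algebraMap k N).comp fk) x).det ≠ 0 := by
  let Δ : MvPolynomial ι k := (LL bA (MvPolynomial.C.comp fk) (MvPolynomial.X : ι → _)).det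
  have h1 : Δ ≠ 0 := by
    intro h0
    have h2 : MvPolynomial.eval (fun i => fk (bA.repr 1 i)) Δ = 1 := by
      rw [RingHom.map_det, RingHom.mapMatrix_apply, LL_map]
      have h3 : (MvPolynomial.eval fun i => fk (bA.repr 1 i)).comp (MvPolynomial.C.comp fk) = fk :=
        Subsingleton.elim _ _
      have h4 : (⇑(MvPolynomial.eval fun i => fk (bA.repr 1 i)) ∘ (MvPolynomial.X : ι → _)) =
          fun i => fk (bA.repr 1 i) := by
        funext i
        simp
      rw [h3, h4, LL_one, Matrix.det_one]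
    rw [h0, map_zero] at h2
    exact zero_ne_one h2
  have h2 : MvPolynomial.aeval x Δ = (LL bA ((algebraMap k N).comp fk) x).det := by
    have h3 : MvPolynomial.aeval x Δ = ((MvPolynomial.aeval x : MvPolynomial ι k →ₐ[k] N) :
        MvPolynomial ι k →+* N) Δ := rfl
    rw [h3, RingHom.map_det, RingHom.mapMatrix_apply, LL_map]
    congr 2
    · exact Subsingleton.elim _ _
    · funext i
      simp
  rw [← h2]
  intro h3
  exact h1 (algebraicIndependent_iff_injective_aeval.1 hx (by rw [h3, map_zero]))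

theorem mulVec_cancel {M : Matrix ι ι N} (hM : M.det ≠ 0) {a b : ι → N} (h : M *ᵥ a = M *ᵥ b) :
    a = b := by
  have h1 : IsUnit M.det := isUnit_iff_ne_zero.2 hM
  have h2 := congrArg (fun v => M⁻¹ *ᵥ v) h
  simpa [Matrix.mulVec_mulVec, Matrix.nonsing_inv_mul M h1] using h2

/-- Finite-dimensional spaces stable under Frobenius consist of algebraic elements. -/
theorem alg_of_frob {S E : Type} [Field S] [Field E] [Algebra S E] {p : ℕ} [Fact p.Prime]
    [CharP E p] (x : ι → E) (hx : ∀ i, x i ^ p ∈ Submodule.span S (Set.range x)) (i : ι) :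
    IsAlgebraic S (x i) := by
  have hst : ∀ v ∈ Submodule.span S (Set.range x), v ^ p ∈ Submodule.span S (Set.range x) := by
    intro v hv
    induction hv using Submodule.span_induction with
    | mem v hv => obtain ⟨i, rfl⟩ := hv; exact hx i
    | zero => rw [zero_pow (Fact.out (p := p.Prime)).ne_zero]; exact Submodule.zero_mem _
    | add v w _ _ h1 h2 => rw [add_pow_char]; exact Submodule.add_mem _ h1 h2
    | smul s v _ h1 => rw [smul_pow]; exact Submodule.smul_mem _ _ h1
  have hpow : ∀ j : ℕ, x i ^ (p ^ j) ∈ Submodule.span S (Set.range x) := by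
    intro j
    induction j with
    | zero => rw [pow_zero, pow_one]; exact Submodule.subset_span ⟨i, rfl⟩
    | succ j ih => rw [pow_succ, pow_mul]; exact hst _ ih
  by_contra hna
  have hinj : Function.Injective (Polynomial.aeval (R := S) (x i)) := transcendental_iff_injective.1 hna
  have hli : LinearIndependent S (fun n : ℕ => x i ^ n) := by
    have h1 := (Polynomial.basisMonomials S).linearIndependent.map'
      (Polynomial.aeval (R := S) (x i)).toLinearMap (LinearMap.ker_eq_bot.2 hinj)
    have h2 : (⇑(Polynomial.aeval (R := S) (x i)).toLinearMap ∘ ⇑(Polynomial.basisMonomials S)) =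
        fun n : ℕ => x i ^ n := by
      funext n
      simp
    rw [h2] at h1
    exact h1
  have hli2 : LinearIndependent S (fun j : ℕ => x i ^ (p ^ j)) :=
    hli.comp (fun j => p ^ j) (Nat.pow_right_injective (Fact.out (p := p.Prime)).two_le)
  have hfd : FiniteDimensional S (Submodule.span S (Set.range x)) :=
    FiniteDimensional.span_of_finite S (Set.finite_range x)
  have hli3 : LinearIndependent S (fun j : ℕ => (⟨x i ^ (p ^ j), hpow j⟩ :
      Submodule.span S (Set.range x))) := by
    rw [← LinearMap.linearIndependent_iff (Submodule.span S (Set.range x)).subtype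
      (Submodule.ker_subtype _)]
    exact hli2
  have := hli3.finite
  exact not_finite ℕ

theorem lang_torsor (fk : ZMod p →+* k) (x : ι → N) (hx : AlgebraicIndependent k x) :
    ∃ u : ι → N,
      (∀ (γ : N ≃ₐ[k] N) (c : Aˣ), (∀ i, γ (x i) = act (Mu bA k fk c) x i) → ∀ i, γ (u i) = u i) ∧
      (∀ (γ : N ≃ₐ[k] N), (∀ i, γ (u i) = u i) → ∃ c : Aˣ, ∀ i, γ (x i) = act (Mu bA k fk c) x i) ∧
      ∀ i, IsAlgebraic (IntermediateField.adjoin k (Set.range u)) (x i) := by
  have hcN : CharP N p := charP_of_injective_algebraMap (algebraMap k N).injective p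
  set f : ZMod p →+* N := (algebraMap k N).comp fk with hf
  have hdet : (LL bA f x).det ≠ 0 := det_ne_zero bA fk x hx
  have hunit : IsUnit (LL bA f x).det := isUnit_iff_ne_zero.2 hdet
  have hact : ∀ (c : A) (v : ι → N), act ((Algebra.leftMulMatrix bA c).map fk) v =
      LL bA f (fun i => f (bA.repr c i)) *ᵥ v := by
    intro c v
    rw [LL_repr]
    rfl
  -- Frobenius
  let fr : (ι → N) → (ι → N) := fun v => frobenius N p ∘ v
  have hmapvec : ∀ (g : N →+* N) (a b : ι → N), g ∘ (LL bA f a *ᵥ b) = LL bA f (g ∘ a) *ᵥ (g ∘ b) := by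
    intro g a b
    have h1 : g.comp f = f := Subsingleton.elim _ _
    have h2 := LL_map bA f g a
    rw [h1] at h2
    rw [← h2]
    funext i
    exact RingHom.map_mulVec g _ _ i
  have hcst : ∀ (g : N →+* N) (c : A), g ∘ (fun i => f (bA.repr c i)) = fun i => f (bA.repr c i) := by
    intro g c
    have h1 : g.comp f = f := Subsingleton.elim _ _
    funext i
    exact congrArg (fun h : ZMod p →+* N => h (bA.repr c i)) h1
  let u : ι → N := (LL bA f x)⁻¹ *ᵥ fr x
  have hu : LL bA f x *ᵥ u = fr x := by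
    simp only [u, Matrix.mulVec_mulVec]
    rw [Matrix.mul_nonsing_inv _ hunit, Matrix.one_mulVec]
  have hdetγ : ∀ g : N →+* N, (LL bA f (g ∘ x)).det ≠ 0 := by
    intro g
    have h1 : g.comp f = f := Subsingleton.elim _ _
    have h2 := LL_map bA f g x
    rw [h1] at h2
    have h3 : (LL bA f (g ∘ x)).det = g (LL bA f x).det := by
      rw [← h2]
      exact (RingHom.map_det g _).symm
    rw [h3]
    exact (map_ne_zero g).2 hdet
  have hMc : ∀ a b : ι → N, LL bA f a * LL bA f b = LL bA f b * LL bA f a := by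
    intro a b
    rw [← LL_mul, LL_comm, LL_mul]
  refine ⟨u, fun γ c hc => ?_, fun γ hγ => ?_, fun i => ?_⟩
  · -- invariance
    obtain ⟨cc, hcc⟩ : ∃ cc : ι → N, cc = fun i => f (bA.repr (c : A) i) := ⟨_, rfl⟩
    have h1 : (γ : N →+* N) ∘ x = LL bA f cc *ᵥ x := by
      rw [hcc, ← hact]
      funext i
      exact hc i
    have h2 : LL bA f ((γ : N →+* N) ∘ x) *ᵥ ((γ : N →+* N) ∘ u) = fr ((γ : N →+* N) ∘ x) := by
      rw [← hmapvec, hu]
      funext i
      exact map_pow γ (x i) p
    have h3 : fr ((γ : N →+* N) ∘ x) = LL bA f ((γ : N →+* N) ∘ x) *ᵥ u := by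
      have h4 : fr (LL bA f cc *ᵥ x) = LL bA f (fr cc) *ᵥ fr x := hmapvec _ _ _
      have h5 : fr cc = cc := by rw [hcc]; exact hcst _ _
      rw [h1, h4, h5, ← hu, Matrix.mulVec_mulVec, LL_mul]
    rw [h3] at h2
    have h4 := mulVec_cancel (hdetγ _) h2
    intro i
    exact congrFun h4 i
  · -- the torsor property
    obtain ⟨c, hc⟩ : ∃ c : ι → N, LL bA f x *ᵥ c = (γ : N →+* N) ∘ x := by
      refine ⟨(LL bA f x)⁻¹ *ᵥ ((γ : N →+* N) ∘ x), ?_⟩
      rw [Matrix.mulVec_mulVec, Matrix.mul_nonsing_inv _ hunit, Matrix.one_mulVec]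
    have hγu : (γ : N →+* N) ∘ u = u := funext hγ
    have h1 : LL bA f ((γ : N →+* N) ∘ x) *ᵥ u = fr ((γ : N →+* N) ∘ x) := by
      have h2 : (γ : N →+* N) ∘ (LL bA f x *ᵥ u) = (γ : N →+* N) ∘ fr x :=
        congrArg (fun v => (γ : N →+* N) ∘ v) hu
      rw [hmapvec, hγu] at h2
      rw [h2]
      funext i
      exact map_pow γ (x i) p
    have h2 : LL bA f (fr x) *ᵥ fr c = LL bA f (fr x) *ᵥ c := by
      have h3 : fr ((γ : N →+* N) ∘ x) = LL bA f (fr x) *ᵥ fr c := by
        rw [← hc]
        exact hmapvec _ _ _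
      rw [← h3, ← h1, ← hc, LL_mul, ← Matrix.mulVec_mulVec, LL_comm bA f c u,
        Matrix.mulVec_mulVec, ← LL_mul, hu]
    have h3 : fr c = c := mulVec_cancel (hdetγ _) h2
    have h4 : ∀ i, ∃ a : ZMod p, f a = c i := by
      intro i
      have h5 : c i ^ p = c i := congrFun h3 i
      have h6 := (Subfield.mem_bot_iff_pow_eq_self N p).2 h5
      obtain ⟨n, hn⟩ := (mem_bot_iff_intCast p N).1 h6
      exact ⟨n, by rw [map_intCast]; exact hn⟩
    choose a ha using h4
    let cA : A := bA.equivFun.symm a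
    have hcA : ∀ i, bA.repr cA i = a i := by
      intro i
      have h5 : bA.equivFun cA = a := LinearEquiv.apply_symm_apply _ _
      exact congrFun h5 i
    have hcc : c = fun i => f (bA.repr cA i) := by
      funext i
      rw [hcA, ha]
    have hγx : (γ : N →+* N) ∘ x = LL bA f (fun i => f (bA.repr cA i)) *ᵥ x := by
      rw [← hc, LL_comm, hcc]
    have hdA : (Algebra.leftMulMatrix bA cA).det ≠ 0 := by
      intro h0
      have h5 : (LL bA f ((γ : N →+* N) ∘ x)).det = 0 := by
        rw [hγx, LL_mul, Matrix.det_mul, LL_repr]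
        have h6 : ((Algebra.leftMulMatrix bA cA).map f).det = f (Algebra.leftMulMatrix bA cA).det :=
          (RingHom.map_det f _).symm
        rw [h6, h0, map_zero, zero_mul]
      exact hdetγ _ h5
    have hcu : IsUnit cA := by
      rw [isUnit_iff_exists_inv]
      refine ⟨bA.equivFun.symm ((Algebra.leftMulMatrix bA cA)⁻¹ *ᵥ (fun i => bA.repr 1 i)), ?_⟩
      apply bA.repr.injective
      apply Finsupp.ext
      intro i
      have h5 := Algebra.leftMulMatrix_mulVec_repr bA cA
        (bA.equivFun.symm ((Algebra.leftMulMatrix bA cA)⁻¹ *ᵥ (fun i => bA.repr 1 i)))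
      have h6 : ⇑(bA.repr (bA.equivFun.symm
          ((Algebra.leftMulMatrix bA cA)⁻¹ *ᵥ (fun i => bA.repr 1 i)))) =
          (Algebra.leftMulMatrix bA cA)⁻¹ *ᵥ (fun i => bA.repr 1 i) :=
        LinearEquiv.apply_symm_apply bA.equivFun _
      rw [h6, Matrix.mulVec_mulVec, Matrix.mul_nonsing_inv _ (isUnit_iff_ne_zero.2 hdA),
        Matrix.one_mulVec] at h5
      exact (congrFun h5 i).symm
    obtain ⟨cu, hcu'⟩ := hcu
    refine ⟨cu, fun i => ?_⟩
    rw [Mu_apply, hact, hcu', ← hγx]
    rfl
  · -- algebraicity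
    have h1 : fr x = LL bA f u *ᵥ x := by rw [LL_comm, hu]
    refine alg_of_frob (p := p) x (fun i => ?_) i
    have h2 : x i ^ p = (LL bA f u *ᵥ x) i := congrFun h1 i
    rw [h2]
    refine Submodule.sum_mem _ fun j _ => ?_
    have h3 : LL bA f u i j ∈ IntermediateField.adjoin k (Set.range u) := by
      rw [LL_apply]
      refine sum_mem fun l _ => mul_mem (IntermediateField.subset_adjoin _ _ ⟨l, rfl⟩) ?_
      exact IntermediateField.algebraMap_mem _ _
    exact Submodule.smul_mem _ (⟨_, h3⟩ : IntermediateField.adjoin k (Set.range u))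
      (Submodule.subset_span ⟨j, rfl⟩)

end lang

end Pool.Agent.W200.IH
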