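import Mathlib
import Pool.Agent.W200.IH.TE

/-!
A finite commutative algebra over the prime field whose unit group has enough characters.
-/

set_option autoImplicit false

namespace Pool.Agent.W200.IH

/-- Characters of a finite commutative group are prescribed on an element of maximal order. -/
theorem exists_char {U G : Type} [CommGroup U] [Finite U] [Group G] (σ : U)
    (hσ : orderOf σ = Monoid.exponent U) (g : G) (hg : orderOf g ∣ Monoid.exponent U) :
    ∃ χ : U →* G, χ σ = g := by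
  have hE0 : Monoid.exponent U ≠ 0 := Monoid.exponent_ne_zero_of_finite
  obtain ⟨ζ, hζ⟩ : ∃ ζ : ℂˣ, IsPrimitiveRoot ζ (Monoid.exponent U) := by
    have h1 := Complex.isPrimitiveRoot_exp (Monoid.exponent U) hE0
    exact ⟨_, h1.isUnit_unit hE0⟩
  have hζo : orderOf ζ = Monoid.exponent U := hζ.eq_orderOf.symm
  let s : Subgroup.zpowers σ := ⟨σ, Subgroup.mem_zpowers σ⟩
  have hs : ∀ x, x ∈ Subgroup.zpowers s := by
    rintro ⟨x, n, rfl⟩
    exact ⟨n, Subtype.ext rfl⟩
  have hso : orderOf s = Monoid.exponent U := by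
    rw [← hσ]
    exact Subgroup.orderOf_mk σ _
  obtain ⟨φ, hφ⟩ := MonoidHom.domRestrict_surjective ℂ (Subgroup.zpowers σ)
    (monoidHomOfForallMemZpowers hs (g' := ζ) (by rw [hζo, hso]))
  have hφσ : φ σ = ζ := by
    have h1 := DFunLike.congr_fun hφ s
    rw [monoidHomOfForallMemZpowers_apply_gen] at h1
    exact h1
  let t : Subgroup.zpowers ζ := ⟨ζ, Subgroup.mem_zpowers ζ⟩
  have ht : ∀ x, x ∈ Subgroup.zpowers t := by
    rintro ⟨x, n, rfl⟩
    exact ⟨n, Subtype.ext rfl⟩
  have hto : orderOf t = Monoid.exponent U := by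
    rw [← hζo]
    exact Subgroup.orderOf_mk ζ _
  have hmem : ∀ u, φ u ∈ Subgroup.zpowers ζ := by
    intro u
    have : NeZero (Monoid.exponent U) := ⟨hE0⟩
    rw [hζ.zpowers_eq, mem_rootsOfUnity, ← map_pow, Monoid.pow_exponent_eq_one, map_one]
  refine ⟨(monoidHomOfForallMemZpowers ht (g' := g) (by rw [hto]; exact hg)).comp
    (φ.codRestrict (Subgroup.zpowers ζ) hmem), ?_⟩
  have h1 : φ.codRestrict (Subgroup.zpowers ζ) hmem σ = t := Subtype.ext hφσ
  rw [MonoidHom.comp_apply, h1, monoidHomOfForallMemZpowers_apply_gen]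

theorem exists_torsor (p : ℕ) [Fact p.Prime] (G : Type) [Group G] [Finite G] (m : ℕ) :
    ∃ (A : Type) (_ : CommRing A) (_ : Algebra (ZMod p) A) (ι : Type) (_ : Fintype ι)
      (_ : DecidableEq ι) (_ : Module.Basis ι (ZMod p) A) (_ : Finite Aˣ) (σ : Fin m → Aˣ),
      ∀ h : Fin m → G, ∃ χ : Fin m → (Aˣ →* G), ∀ a b, χ a (σ b) = if a = b then h a else 1 := by
  classical
  let e := Nat.card G
  have he : NeZero e := ⟨Nat.card_pos.ne'⟩
  let A₀ := MonoidAlgebra (ZMod p) (Multiplicative (ZMod e))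
  have hfin : Finite A₀ := Module.finite_of_finite (ZMod p)
  have hfin' : Finite (Fin m → A₀) := inferInstance
  have hfu : Finite A₀ˣ := inferInstance
  have hfuA : Finite (Fin m → A₀)ˣ := inferInstance
  obtain ⟨σ₀, hσ₀⟩ := Monoid.exists_orderOf_eq_exponent
    (Monoid.ExponentExists.of_finite (G := A₀ˣ))
  have hdvd : e ∣ Monoid.exponent A₀ˣ := by
    let τ : A₀ˣ := Units.map (MonoidAlgebra.of (ZMod p) (Multiplicative (ZMod e)))
      (toUnits (Multiplicative.ofAdd (1 : ZMod e)))
    have h1 : orderOf τ = e := by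
      have h2 : Function.Injective (Units.map (MonoidAlgebra.of (ZMod p) (Multiplicative (ZMod e)))) :=
        Units.map_injective MonoidAlgebra.of_injective
      rw [orderOf_injective _ h2]
      have h3 := orderOf_injective (toUnits (G := Multiplicative (ZMod e))).toMonoidHom
        (MulEquiv.injective _) (Multiplicative.ofAdd (1 : ZMod e))
      refine Eq.trans h3 ?_
      rw [orderOf_ofAdd_eq_addOrderOf, ZMod.addOrderOf_one]
    exact h1.symm.dvd.trans (Monoid.order_dvd_exponent τ)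
  refine ⟨Fin m → A₀, inferInstance, inferInstance, _, inferInstance, inferInstance,
    Module.finBasis (ZMod p) (Fin m → A₀), hfuA,
    fun a => MulEquiv.piUnits.symm (Pi.mulSingle a σ₀), fun h => ?_⟩
  have h1 := fun a => exists_char σ₀ hσ₀ (h a) ((orderOf_dvd_natCard (h a)).trans hdvd)
  choose χ hχ using h1
  refine ⟨fun a => (χ a).comp ((Pi.evalMonoidHom (fun _ : Fin m => A₀ˣ) a).comp
    (MulEquiv.piUnits (M := fun _ : Fin m => A₀)).toMonoidHom), fun a b => ?_⟩
  have h2 : (MulEquiv.piUnits (M := fun _ : Fin m => A₀))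
      (MulEquiv.piUnits.symm (Pi.mulSingle b σ₀)) = Pi.mulSingle b σ₀ :=
    MulEquiv.apply_symm_apply _ _
  change χ a ((MulEquiv.piUnits (M := fun _ : Fin m => A₀))
      (MulEquiv.piUnits.symm (Pi.mulSingle b σ₀)) a) = _
  rw [h2]
  by_cases hab : a = b
  · subst hab
    rw [if_pos rfl, Pi.mulSingle_eq_same, hχ]
  · rw [if_neg hab, Pi.mulSingle_eq_of_ne hab, map_one]

end Pool.Agent.W200.IH
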