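import Mathlib
import Pool.Agent.W200.IH.TD
import Pool.Agent.W200.IH.TF
import Pool.Agent.W200.IG.Gen

/-!
The full wreath product `G ≀ S_n` over a purely transcendental extension of a field of positive
characteristic.
-/

set_option autoImplicit false

namespace Pool.Agent.W200.IH

open MvPolynomial
open Pool.Agent.H391R2 (Wr exists_field)
open Pool.Agent.H391R2.T4 (orb y_mem_orb YData eq_on_adjoin field_le)
open Pool.Agent.W200.IG (finite_descent exists_data basis_vars)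

set_option linter.unusedSectionVars false

/-- Passage to a finite Galois extension of a field of rational functions. -/
theorem to_galois {k N V W : Type} [Field k] [Field N] [Algebra k N] [IsAlgClosed N] [Group W]
    (Z : V → N) (hZ : IsTranscendenceBasis k Z) (Rl : (N ≃ₐ[k] N) → W → Prop)
    (huniq : ∀ γ X Y, Rl γ X → Rl γ Y → X = Y)
    (hmul : ∀ γ γ' X X', Rl γ X → Rl γ' X' → Rl (γ * γ') (X * X'))
    (S : Set N) (hSf : S.Finite) (hS : ∀ γ, (∀ s ∈ S, γ s = s) → Rl γ 1)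
    (h1 : ∀ γ : N ≃ₐ[k] N, (∀ v, γ (Z v) = Z v) → ∃ X, Rl γ X)
    (h2 : ∀ X, ∃ γ : N ≃ₐ[k] N, (∀ v, γ (Z v) = Z v) ∧ Rl γ X) :
    ∃ (F : Type) (_ : Field F) (_ : Algebra (MvPolynomial V k) F)
        (_ : IsFractionRing (MvPolynomial V k) F) (E : Type) (_ : Field E) (_ : Algebra F E),
        (FiniteDimensional F E ∧ IsGalois F E) ∧ Nonempty (W ≃* (E ≃ₐ[F] E)) := by
  obtain ⟨F, iF1, iF2, iF3, iF4, iF5, φ, hφ⟩ := exists_field hZ.1
  let _ : Algebra F N := φ.toRingHom.toAlgebra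
  have hTF : IsScalarTower k F N := IsScalarTower.of_algebraMap_eq fun x => (φ.commutes x).symm
  have hZF : ∀ v, Z v = algebraMap F N (algebraMap (MvPolynomial V k) F (MvPolynomial.X v)) := by
    intro i
    change _ = φ _
    rw [hφ, aeval_X]
  have halg : Algebra.IsAlgebraic F N :=
    Pool.Agent.H391R2.T4.alg_of_range Z hZ fun v => ⟨_, (hZF v).symm⟩
  have hcl : IsAlgClosure F N := ⟨inferInstance, halg⟩
  have hnorm : Normal F N := IsAlgClosure.normal F N
  have hfix : ∀ γ : N ≃ₐ[F] N, ∀ v, (γ.restrictScalars k) (Z v) = Z v := by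
    intro γ v
    rw [hZF]
    exact γ.commutes _
  have h1' := fun γ : N ≃ₐ[F] N => h1 (γ.restrictScalars k) (hfix γ)
  choose X hX using h1'
  let π : (N ≃ₐ[F] N) →* W := MonoidHom.mk' X (fun γ γ' =>
    huniq _ _ _ (hX (γ * γ')) (hmul _ _ _ _ (hX γ) (hX γ')))
  have hπ : π.range = ⊤ := by
    rw [eq_top_iff]
    intro w _
    obtain ⟨γ, hγZ, hγ⟩ := h2 w
    have hγF : ∀ x : F, γ (algebraMap F N x) = algebraMap F N x := by
      intro x
      have h3 := eq_on_adjoin (γ : N →ₐ[k] N) (AlgHom.id k N) (Set.range Z) (by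
        rintro _ ⟨v, rfl⟩
        exact hγZ v) _ (field_le Z hZF x)
      exact h3
    let γ' : N ≃ₐ[F] N := AlgEquiv.ofRingEquiv (f := (γ : N ≃+* N)) hγF
    refine ⟨γ', ?_⟩
    have h3 : γ'.restrictScalars k = γ := AlgEquiv.ext fun x => rfl
    have h4 := hX γ'
    rw [h3] at h4
    exact huniq _ _ _ h4 hγ
  obtain ⟨E, i1, i2, i3, ⟨e⟩⟩ := finite_descent π S hSf (fun γ hγ =>
    huniq _ _ _ (hX γ) (hS _ hγ))
  exact ⟨F, iF1, iF3, iF5, E, i1, i2, i3,
    ⟨(Subgroup.topEquiv.symm.trans (MulEquiv.subgroupCongr hπ.symm)).trans e⟩⟩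

/-- The numbers. -/
theorem numbers2 (D T m : ℕ) (hD : 0 < D) : ∃ n₀ : ℕ, ∀ n ≥ n₀, 3 ≤ n ∧ ∃ j M : ℕ,
    j + m < M ∧ j + 1 < M ∧ 3 ≤ M ∧ T * (j + m) < M ∧ D * M = n + m + j := by
  refine ⟨3 + D * ((T + 1) * (D + m) + 2), fun n hn => ⟨by omega, ?_⟩⟩
  obtain ⟨j, M, hj, hM⟩ : ∃ j M, j < D ∧ D * M = n + m + j := by
    have h1 := Nat.div_add_mod (n + m) D
    have h2 := Nat.mod_lt (n + m) hD
    by_cases h0 : (n + m) % D = 0
    · exact ⟨0, (n + m) / D, hD, by omega⟩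
    · refine ⟨D - (n + m) % D, (n + m) / D + 1, by omega, ?_⟩
      rw [mul_add, mul_one]
      omega
  have h1 : D * ((T + 1) * (D + m) + 2) < D * M := by omega
  have h2 : (T + 1) * (D + m) + 2 < M := Nat.lt_of_mul_lt_mul_left h1
  refine ⟨j, M, ?_, ?_, ?_, ?_, hM⟩
  · nlinarith
  · nlinarith
  · nlinarith
  · nlinarith

end Pool.Agent.W200.IH
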