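import Mathlib
import Pool.Agent.W200.IH.TG

/-!
The full wreath product `G ≀ S_n` over a purely transcendental extension of a field of positive
characteristic: the final statements.
-/

set_option autoImplicit false

namespace Pool.Agent.W200.IH

open MvPolynomial
open Pool.Agent.H391R2 (Wr)
open Pool.Agent.H391R2.T4 (orb y_mem_orb YData)
open Pool.Agent.W200.IG (exists_data basis_vars HP hp_base galois_spec sp_mvPolynomial)

set_option linter.unusedSectionVars false

open Classical in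
/-- Generic realisation of the full wreath product. -/
theorem gen_full (p : ℕ) [Fact p.Prime] (k G : Type) [Field k] [Infinite k] [CharP k p]
    [Group G] [Finite G] :
    ∃ n₀ : ℕ, ∀ n ≥ n₀, 3 ≤ n ∧
      ∃ (ι : Type) (_ : Finite ι) (F : Type) (_ : Field F) (_ : Algebra (MvPolynomial ι k) F)
        (_ : IsFractionRing (MvPolynomial ι k) F) (E : Type) (_ : Field E) (_ : Algebra F E),
        (FiniteDimensional F E ∧ IsGalois F E) ∧ Nonempty (Wr G n ≃* (E ≃ₐ[F] E)) := by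
  have := Fintype.ofFinite G
  obtain ⟨y, hy⟩ : ∃ y : MvPolynomial G k, y = H391R2.y0 k G := ⟨_, rfl⟩
  have hYD : YData y := by
    rw [hy]
    exact ⟨H391R2.y0_rename_mul k G, H391R2.y0_stab k G⟩
  obtain ⟨Ψ, hm, hdeg, hΨ⟩ := H391R2.T4.exists_psi y
  obtain ⟨T, hT⟩ : ∃ T : ℕ, ∀ e, (Ψ.coeff e).totalDegree ≤ T := by
    refine ⟨(Finset.range (Ψ.natDegree + 1)).sup fun e => (Ψ.coeff e).totalDegree, fun e => ?_⟩
    by_cases he : e ≤ Ψ.natDegree
    · exact Finset.le_sup (f := fun e => (Ψ.coeff e).totalDegree)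
        (Finset.mem_range.2 (Nat.lt_succ_of_le he))
    · rw [Polynomial.coeff_eq_zero_of_natDegree_lt (not_le.1 he), totalDegree_zero]
      exact Nat.zero_le _
  have hd0 : 0 < (orb y).card := Finset.card_pos.2 ⟨_, y_mem_orb y⟩
  obtain ⟨m, hmdef⟩ : ∃ m : ℕ, m = Nat.card (Abelianization G) := ⟨_, rfl⟩
  obtain ⟨gen, hgen⟩ : ∃ gen : Fin (m + 2) → Abelianization G, Function.Surjective gen := by
    let e : Abelianization G ≃ Fin m := (Finite.equivFin _).trans (finCongr hmdef.symm)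
    have h1 : Function.Injective (fun a => Fin.castLE (Nat.le_add_right m 2) (e a)) :=
      (Fin.castLE_injective _).comp e.injective
    exact ⟨_, Function.invFun_surjective h1⟩
  obtain ⟨n₀, hn₀⟩ := numbers2 (orb y).card T (m + 2) hd0
  refine ⟨n₀, fun n hn => ?_⟩
  obtain ⟨hn3, J, M, hJM, hJ1, hM3, hTM, hDM⟩ := hn₀ n hn
  refine ⟨hn3, ?_⟩
  obtain ⟨d, hd, hdM, hsep⟩ := exists_data y J M hJ1 hM3
  obtain ⟨A, a1, a2, ι, a3, a4, bA, a5, σ, hχ⟩ := exists_torsor p G (m + 2)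
  let fk : ZMod p →+* k := ZMod.castHom dvd_rfl k
  let V := ι ⊕ (Unit ⊕ Ix G (m + 2))
  let F := FractionRing (MvPolynomial V k)
  let N := AlgebraicClosure F
  let X : V → N := fun v : V => algebraMap F N (algebraMap (MvPolynomial V k) F (X v))
  have hX : IsTranscendenceBasis k X := basis_vars
  let x : ι → N := fun i => X (Sum.inl i)
  let ξ : Unit ⊕ Ix G (m + 2) → N := fun i => X (Sum.inr i)
  have hXx : X = Sum.elim x ξ := by
    funext v
    rcases v with v | v <;> rfl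
  have hx : AlgebraicIndependent k x := hX.1.comp Sum.inl Sum.inl_injective
  obtain ⟨u, hu2, hu3, hu4⟩ := lang_torsor bA fk x hx
  obtain ⟨V', _, Z, r, vv, hZ, hr, hv, h1, h2⟩ := twist_main y d hd Ψ hm hΨ T hT
    hsep M hJM hTM hdM hn3
    (by rw [hdeg]; exact hDM) (K := k) (N := N) (Mu bA k fk) (Mu_injective bA k fk) x ξ
    (by rw [← hXx]; exact hX) u hu2 hu3 hu4 σ hχ gen
    (by rw [hgen.range_eq, Subgroup.closure_univ])
  obtain ⟨F, iF1, iF2, iF3, E, i1, i2, i3, e⟩ := to_galois Z hZ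
    (fun γ X => Rel r vv γ X)
    (fun γ X Y hX hY => Rel.uniq hr hv hX hY)
    (fun γ γ' X X' hX hX' => by
      have h3 : Rel r vv (γ ∘ γ') (X * X') := Rel.mul r vv hX hX'
      exact h3)
    (Set.range r ∪ ⋃ i, Set.range (vv i))
    ((Set.finite_range r).union (Set.finite_iUnion fun i => Set.finite_range _))
    (fun γ hγ i => ⟨hγ _ (Or.inl ⟨i, rfl⟩), fun g => by
      have h3 := hγ (vv i g) (Or.inr (Set.mem_iUnion.2 ⟨i, ⟨g, rfl⟩⟩))
      rw [h3]
      change vv i g = vv i (1 * g)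
      rw [one_mul]⟩)
    h1 h2
  exact ⟨V', inferInstance, F, iF1, iF2, iF3, E, i1, i2, i3, e⟩

/-- Realisation over a Hilbertian field of positive characteristic. -/
theorem hilb_full (p : ℕ) [Fact p.Prime] (k : Type) [Field k] [Infinite k] [CharP k p]
    (hk : HP k k) (G : Type) [Group G] [Finite G] :
    ∃ n₀ : ℕ, ∀ n ≥ n₀, 3 ≤ n ∧
      ∃ (L : Type) (_ : Field L) (_ : Algebra k L),
        (FiniteDimensional k L ∧ IsGalois k L) ∧ Nonempty (Wr G n ≃* (L ≃ₐ[k] L)) := by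
  obtain ⟨n₀, hn₀⟩ := gen_full p k G
  refine ⟨n₀, fun n hn => ?_⟩
  obtain ⟨hn3, ι, j1, F, j2, j3, j4, E, j5, j6, ⟨j7, j8⟩, ⟨e⟩⟩ := hn₀ n hn
  refine ⟨hn3, ?_⟩
  obtain ⟨L, l1, l2, l3, ⟨e'⟩⟩ := galois_spec (K := k) (A := MvPolynomial ι k) (F := F) (N := E)
    (sp_mvPolynomial k hk ι)
  exact ⟨L, l1, l2, l3, ⟨e.trans e'⟩⟩

/-- Realisation over `κ(X)` for a finite field `κ`. -/
theorem fin_full (κ : Type) [Field κ] [Finite κ] (G : Type) [Group G] [Finite G] :
    ∃ n₀ : ℕ, ∀ n ≥ n₀, 3 ≤ n ∧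
      ∃ (L : Type) (_ : Field L) (_ : Algebra (RatFunc κ) L),
        (FiniteDimensional (RatFunc κ) L ∧ IsGalois (RatFunc κ) L) ∧
          Nonempty (Wr G n ≃* (L ≃ₐ[RatFunc κ] L)) := by
  have hinf : Infinite (RatFunc κ) :=
    Infinite.of_injective _ (IsFractionRing.injective (Polynomial κ) (RatFunc κ))
  obtain ⟨p, hp⟩ := CharP.exists κ
  have hp' : Fact p.Prime := ⟨(CharP.char_is_prime_or_zero κ p).resolve_right
    (CharP.char_ne_zero_of_finite κ p)⟩
  have hcR : CharP (RatFunc κ) p :=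
    charP_of_injective_algebraMap (algebraMap κ (RatFunc κ)).injective p
  exact hilb_full p (RatFunc κ) (hp_base (κ := κ) (RatFunc κ)) G

end Pool.Agent.W200.IH
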